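import Pool.Agent.H33.SHL.EST

/-!
Row ENV: the environment.
-/

set_option autoImplicit false

namespace Pool.Agent.H33.SHL

open Finset Pool.Agent.H97.SHL

lemma lg_one (m B : ℕ) : 1 ≤ lg m B := by
  unfold lg
  have h1 : 0 ≤ Real.log B := Real.log_natCast_nonneg B
  have h2 : (0 : ℝ) ≤ m := Nat.cast_nonneg _
  nlinarith [mul_nonneg h2 h1]

lemma card_pt (m B : ℕ) : Fintype.card (Pt m B) = B ^ m := by
  rw [Fintype.card_fun, Fintype.card_fin, Fintype.card_fin]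

/-- the whole space is spread -/
lemma spr_univ {m B s : ℕ} (hsB : s ≤ B) : Spr s (univ : Finset (Pt m B)) ∅ := by
  classical
  intro M _ z
  have h1 : (fx (univ : Finset (Pt m B)) M z).card * B ^ M.card ≤
      (univ : Finset (Pt m B)).card := by
    -- the pairs (point, values on `M`) are points
    let F : Pt m B × ({i // i ∈ M} → Fin B) → Pt m B := fun u i =>
      if h : i ∈ M then u.2 ⟨i, h⟩ else u.1 i
    have h2 : (fx (univ : Finset (Pt m B)) M z ×ˢ (univ : Finset ({i // i ∈ M} → Fin B))).card ≤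
        (univ : Finset (Pt m B)).card := by
      refine Finset.card_le_card_of_injOn F (fun _ _ => Finset.mem_coe.2 (Finset.mem_univ _)) ?_
      rintro ⟨x, v⟩ hx ⟨x', v'⟩ hx' hF
      rw [Finset.mem_coe, Finset.mem_product] at hx hx'
      have e1 := (Finset.mem_filter.1 hx.1).2
      have e2 := (Finset.mem_filter.1 hx'.1).2
      have e3 : x = x' := by
        funext i
        by_cases hi : i ∈ M
        · exact (e1 i hi).trans (e2 i hi).symm
        · have h3 := congrFun hF i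
          simp only [F, dif_neg hi] at h3
          exact h3
      have e4 : v = v' := by
        funext i
        have h3 := congrFun hF i.1
        simp only [F, dif_pos i.2] at h3
        exact h3
      rw [e3, e4]
    rw [Finset.card_product, Finset.card_univ (α := {i // i ∈ M} → Fin B), Fintype.card_fun,
      Fintype.card_fin, Fintype.card_coe] at h2
    exact h2
  exact (Nat.mul_le_mul_left _ (Nat.pow_le_pow_left hsB _)).trans h1

theorem pf_ENV (hDEC : T_DEC) (hOVB : T_OVB) (hGEX : T_GEX) (hZBD : T_ZBD) (hAL2 : T_AL2)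
    (hAL4 : T_AL4) (hEST : T_EST) (hLEA : T_LEA) (hBLM : T_BLM) (hFAM : T_FAM) : T_ENV := by
  classical
  intro m B q r a₀ g s H σ T₀ ℓ τ Λ hp 𝓛 h𝓛
  have hs1 : 1 ≤ s := lt_of_le_of_lt (Nat.zero_le _) hp.σs
  have hB0 : 0 < B := hp.B1
  -- the decompositions
  choose dc hdc using fun Q => hDEC m B s Q hp.B1 hs1
  have hcard : 0 < Fintype.card (Pt m B) := by
    rw [card_pt]
    exact pow_pos hB0 m
  have hdccard : ∀ Q, (dc Q).card ≤ Fintype.card (Pt m B) := by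
    intro Q
    have h1 : (dc Q).card ≤ ((dc Q).biUnion Prod.fst).card := by
      refine Finset.card_le_card_biUnion ?_ fun p hp' => (hdc Q).ne p hp'
      intro p hp' p' hp'' hne
      exact (hdc Q).dis p (Finset.mem_coe.1 hp') p' (Finset.mem_coe.1 hp'') hne
    exact h1.trans (Finset.card_le_univ _)
  -- the gadgets
  set 𝓟 : Finset (Finset (Pt m B)) := insert univ (pa dc (fam dc 𝓛 T₀)) with h𝓟
  have hPc : (𝓟.card : ℝ) ≤ 5 * ((B : ℝ) ^ m) ^ 4 * (2 * (ℓ : ℝ) + 1) ^ (T₀ + 2) := by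
    have h1 := hFAM (Pt m B) (Finset (Fin m)) dc 𝓛 T₀ hcard hdccard
    rw [card_pt] at h1
    have h2 : (𝓟.card : ℝ) ≤ ((5 * (B ^ m) ^ 4 * (2 * 𝓛.card + 1) ^ (T₀ + 2) : ℕ) : ℝ) := by
      exact_mod_cast h1
    refine h2.trans ?_
    push_cast
    have h3 : (𝓛.card : ℝ) ≤ ℓ := by exact_mod_cast h𝓛
    have h4 : (2 * (𝓛.card : ℝ) + 1) ^ (T₀ + 2) ≤ (2 * (ℓ : ℝ) + 1) ^ (T₀ + 2) :=
      pow_le_pow_left₀ (by positivity) (by linarith) _
    exact mul_le_mul_of_nonneg_left h4 (by positivity)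
  obtain ⟨G, hG⟩ := hGEX m B q 𝓟 Λ hp.q0 hp.Λ0 (by
    refine lt_of_le_of_lt ?_ hp.ub
    exact mul_le_mul_of_nonneg_right hPc (by positivity))
  -- the estimates
  have hest : ∀ P ∈ 𝓟, ∀ A : Finset (Fin m), A.card ≤ a₀ → Agr P A → Spr s P A → ∀ x₀ ∈ P,
      |∑ x ∈ P, DD q r (gp G x) - P.card * fA q A (gp G x₀)| ≤
      P.card * (fA q A (gp G x₀) / 16 + 1 / 16) := fun P hP A hA hAgr hSpr x₀ hx₀ =>
    hEST m B q r a₀ g s H Λ τ G P A hp.H1 hp.qH hp.rq hp.ag hA hp.Λ0 hp.τ0 hp.τ1 hp.qΛ hp.e1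
      hp.e2 hAgr hSpr (fun M η => hZBD m B q Λ 𝓟 G hp.Λ0 hG P hP M η) x₀ hx₀
  have hpa : ∀ Q, Q ∈ fam dc 𝓛 T₀ → ∀ p ∈ dc Q, p.1 ∈ 𝓟 := by
    intro Q hQ p hp'
    rw [h𝓟]
    refine Finset.mem_insert_of_mem ?_
    unfold pa
    exact Finset.mem_biUnion.2 ⟨Q, hQ, Finset.mem_image_of_mem _ hp'⟩
  have hOV := fun Q => hOVB m B s a₀ Q (dc Q) hs1 hp.sB (hdc Q)
  have hlg := lg_one m B
  refine ⟨G, dc, fun Q => Q ∈ fam dc 𝓛 T₀, ?_⟩
  constructor
  · -- U1
    exact one_le_pow₀ (by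
      have : (0 : ℝ) ≤ H := Nat.cast_nonneg _
      linarith)
  · -- N1
    unfold pcc
    have h1 : (1 : ℝ) ≤ m + 1 := by
      have : (0 : ℝ) ≤ m := Nat.cast_nonneg _
      linarith
    have h2 : (1 : ℝ) ≤ (s : ℝ) ^ m := one_le_pow₀ (by exact_mod_cast hs1)
    exact one_le_mul_of_one_le_of_one_le (one_le_mul_of_one_le_of_one_le h1 hlg) h2
  · -- Y0
    unfold Yc
    have : 0 ≤ lg m B := zero_le_one.trans hlg
    positivity
  · -- bnd
    exact fun x => (le_abs_self _).trans (hAL4 m q r H hp.H1 hp.qH hp.rq (gp G x))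
  · -- mono
    rintro Q Q' ⟨𝒯, h1, h2⟩ hQ
    exact ⟨𝒯, h1, fun x hx => h2 x (hQ hx)⟩
  · exact fun Q => (hdc Q).sub
  · exact fun Q => (hdc Q).dis
  · exact fun Q => (hdc Q).cov
  · exact fun Q => (hOV Q).1
  · -- wid
    intro Q
    have h1 : (ws dc (fun p => p.2.card ≤ a₀) Q).card ≤
        ∑ p ∈ (dc Q).filter (fun p => ¬ p.2.card ≤ a₀), p.1.card := by
      have h2 : ws dc (fun p => p.2.card ≤ a₀) Q ⊆
          ((dc Q).filter (fun p => ¬ p.2.card ≤ a₀)).biUnion Prod.fst := by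
        intro x hx
        unfold ws at hx
        obtain ⟨p, hp', hx'⟩ := Finset.mem_biUnion.1 hx
        have hp'' := (@Finset.mem_filter _ _ (_) _ _).1 hp'
        exact Finset.mem_biUnion.2 ⟨p, Finset.mem_filter.2 ⟨hp''.1, hp''.2⟩, hx'⟩
      exact (Finset.card_le_card h2).trans Finset.card_biUnion_le
    have h3 : ((ws dc (fun p => p.2.card ≤ a₀) Q).card : ℝ) ≤
        ∑ p ∈ (dc Q).filter (fun p => ¬ p.2.card ≤ a₀), (p.1.card : ℝ) := by
      exact_mod_cast h1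
    exact h3.trans (hOV Q).2
  · -- bad
    intro Q p hpQ hbad R hR p' hp'R hgd
    apply hbad
    intro x hx
    have hAR : Agr R p.2 := fun y hy y' hy' => (hdc Q).agr p hpQ y (hR hy) y' (hR hy')
    have hsub : p.2 ⊆ p'.2 := (hdc R).cls p.2 hAR p' hp'R
    obtain ⟨x', hx'⟩ := (hdc R).ne p' hp'R
    have h1 : Set.InjOn (gp G x') (p.2 : Set (Fin m)) :=
      (hgd x' hx').mono (Finset.coe_subset.2 hsub)
    have h2 : Set.EqOn (gp G x') (gp G x) (p.2 : Set (Fin m)) := by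
      intro i hi
      unfold gp
      rw [(hdc Q).agr p hpQ x' (hR ((hdc R).sub p' hp'R hx')) x hx i (Finset.mem_coe.1 hi)]
    exact (h2.injOn_iff).1 h1
  · -- lf
    rintro Q ⟨𝒯, h1, h2⟩ p hpQ hgd
    exact hLEA m B q s σ G p.1 p.2 hp.σs ((hdc Q).ne p hpQ) ((hdc Q).spr p hpQ)
      ⟨𝒯, h1, fun x hx => h2 x ((hdc Q).sub p hpQ hx)⟩ hgd
  · -- lo
    intro Q hQ p hpQ hnar hgd
    obtain ⟨x₀, hx₀⟩ := (hdc Q).ne p hpQ
    have h1 := hest p.1 (hpa Q hQ p hpQ) p.2 hnar ((hdc Q).agr p hpQ) ((hdc Q).spr p hpQ) x₀ hx₀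
    have hag := hp.ag
    have h2 : 1 ≤ fA q p.2 (gp G x₀) := (hAL2 m q r H p.2 ∅ hp.H1 hp.qH hp.rq (by
      rw [Finset.card_empty]
      have : p.2.card ≤ a₀ := hnar
      omega) (gp G x₀)).2.2 (hgd x₀ hx₀)
    have h3 := (abs_le.1 h1).1
    have h4 : (0 : ℝ) ≤ (p.1.card : ℝ) := Nat.cast_nonneg _
    have h5 : (p.1.card : ℝ) ≤ p.1.card * fA q p.2 (gp G x₀) := le_mul_of_one_le_right h4 h2
    have h6 : (p.1.card : ℝ) * (fA q p.2 (gp G x₀) / 16 + 1 / 16) =
        p.1.card * fA q p.2 (gp G x₀) / 16 + p.1.card / 16 := by ring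
    rw [h6] at h3
    linarith
  · -- hi
    intro Q hQ p hpQ hnar hgd
    obtain ⟨x₀, hx₀⟩ := (hdc Q).ne p hpQ
    have h1 := hest p.1 (hpa Q hQ p hpQ) p.2 hnar ((hdc Q).agr p hpQ) ((hdc Q).spr p hpQ) x₀ hx₀
    have h2 : fA q p.2 (gp G x₀) = 0 := by
      unfold fA
      rw [if_neg]
      intro h
      apply hgd
      intro x hx
      have h3 : Set.EqOn (gp G x₀) (gp G x) (p.2 : Set (Fin m)) := by
        intro i hi
        unfold gp
        rw [(hdc Q).agr p hpQ x₀ hx₀ x hx i (Finset.mem_coe.1 hi)]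
      exact (h3.injOn_iff).1 h
    rw [h2] at h1
    have h3 := (abs_le.1 h1).2
    have h4 : (0 : ℝ) ≤ (p.1.card : ℝ) := Nat.cast_nonneg _
    change 8 * ∑ x ∈ p.1, DD q r (gp G x) ≤ _
    linarith
  · -- full
    have h0 : (univ : Finset (Pt m B)) ∈ 𝓟 := by
      rw [h𝓟]
      exact Finset.mem_insert_self _ _
    have h1 := hest univ h0 ∅ (by rw [Finset.card_empty]; exact Nat.zero_le _)
      (fun x _ y _ i hi => absurd hi (Finset.notMem_empty i)) (spr_univ hp.sB)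
      (fun _ => ⟨0, hB0⟩) (Finset.mem_univ _)
    rw [fA_empty] at h1
    have h3 := (abs_le.1 h1).1
    have h4 : (0 : ℝ) ≤ ((univ : Finset (Pt m B)).card : ℝ) := Nat.cast_nonneg _
    rw [← Finset.card_univ]
    linarith
  · -- f1
    intro c hc
    unfold fam
    exact Finset.mem_union_left _ (Finset.mem_union_left _ (Finset.mem_union_left _ hc))
  · -- f2
    intro A hA
    unfold fam
    exact Finset.mem_union_left _ (Finset.mem_union_left _ (Finset.mem_union_right _ hA))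
  · -- f3
    intro A hA p hpA c hc
    unfold fam
    refine Finset.mem_union_left _ (Finset.mem_union_right _ ?_)
    refine (hBLM (Pt m B) 𝓛 {p.1} (pa dc 𝓛) T₀ T₀ ?_ le_rfl).1 hc
    rw [Finset.singleton_subset_iff]
    unfold pa
    exact Finset.mem_biUnion.2 ⟨A, hA, Finset.mem_image_of_mem _ hpA⟩
  · -- f4
    intro A hA p hpA c hc p'' hp'' A' hA' p' hp'
    unfold fam
    refine Finset.mem_union_right _ (Finset.mem_image₂.2 ⟨p''.1, ?_, p'.1, ?_, rfl⟩)
    · unfold pa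
      refine Finset.mem_biUnion.2 ⟨c, ?_, Finset.mem_image_of_mem _ hp''⟩
      refine (hBLM (Pt m B) 𝓛 {p.1} (pa dc 𝓛) T₀ T₀ ?_ le_rfl).1 hc
      rw [Finset.singleton_subset_iff]
      unfold pa
      exact Finset.mem_biUnion.2 ⟨A, hA, Finset.mem_image_of_mem _ hpA⟩
    · unfold pa
      exact Finset.mem_biUnion.2 ⟨A', hA', Finset.mem_image_of_mem _ hp'⟩

end Pool.Agent.H33.SHL
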