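import Pool.Agent.H97.SHL.Targets

/-!
Row EST: the sum of the density over a part.
-/

set_option autoImplicit false

namespace Pool.Agent.H33.SHL

open Finset Pool.Agent.H97.SHL

lemma eA_empty {m : ℕ} (q : ℕ) (A : Finset (Fin m)) (y : Fin m → Fin q) :
    eA q A ∅ y = fA q A y := by
  unfold eA
  rw [Finset.powerset_empty, Finset.sum_singleton, Finset.union_empty, Finset.sdiff_self,
    Finset.card_empty, pow_zero, one_mul]

lemma fA_empty {m : ℕ} (q : ℕ) (y : Fin m → Fin q) : fA q (∅ : Finset (Fin m)) y = 1 := by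
  unfold fA
  rw [if_pos (by rw [Finset.coe_empty]; exact Set.injOn_empty _)]
  unfold W
  rw [Finset.card_empty, Finset.range_zero, Finset.prod_empty]

lemma sum_pow (m : ℕ) (c : ℝ) : ∑ M : Finset (Fin m), c ^ M.card = (1 + c) ^ m := by
  have h := Fintype.sum_pow_mul_eq_add_pow (Fin m) c 1
  simp only [one_pow, mul_one, Fintype.card_fin] at h
  rw [h, add_comm]

theorem pf_EST (hEBD : T_EBD) (hAL1 : T_AL1) (hAL2 : T_AL2) (hGRP : T_GRP) : T_EST := by
  classical
  intro m B q r a₀ g s H Λ τ G P A hH hq hrq hag hA hΛ hτ0 hτ1 hqΛ he1 he2 hAgr hSpr hZ x₀ hx₀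
  set f : ℝ := fA q A (gp G x₀) with hf
  have hH0 : (0 : ℝ) ≤ 2 * H := by positivity
  have hP0 : (0 : ℝ) ≤ P.card := Nat.cast_nonneg _
  have hAr : A.card ≤ r := by omega
  -- `f` is nonnegative
  have hA2 := hAL2 m q r H A ∅ hH hq hrq (by rw [Finset.card_empty]; omega)
  have hf0 : 0 ≤ f := (hA2 (gp G x₀)).2.1
  -- the values on `P`
  have hfx : ∀ x ∈ P, fA q A (gp G x) = f := by
    intro x hx
    have h1 : ∀ i ∈ A, gp G x i = gp G x₀ i := fun i hi => by
      unfold gp
      rw [hAgr x hx x₀ hx₀ i hi]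
    rw [hf]
    unfold fA
    have h2 : Set.InjOn (gp G x) (A : Set (Fin m)) ↔ Set.InjOn (gp G x₀) (A : Set (Fin m)) :=
      Set.EqOn.injOn_iff fun i hi => h1 i (Finset.mem_coe.1 hi)
    by_cases h3 : Set.InjOn (gp G x₀) (A : Set (Fin m))
    · rw [if_pos h3, if_pos (h2.2 h3)]
    · rw [if_neg h3, if_neg fun h => h3 (h2.1 h)]
  -- the first sum
  have k1 : ∀ M : Finset (Fin m), M ∈ (Aᶜ).powerset.filter (fun M => M.card ≤ g) →
      |∑ x ∈ P, eA q A M (gp G x)| ≤ f * (2 * H * τ) ^ M.card * P.card := by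
    intro M hM
    rw [Finset.mem_filter, Finset.mem_powerset] at hM
    obtain ⟨hM1, hM2⟩ := hM
    have hdis : Disjoint A M := by
      rw [Finset.disjoint_left]
      intro i hi hi'
      exact (Finset.mem_compl.1 (hM1 hi')) hi
    have hc : A.card + M.card ≤ r := by omega
    by_cases hin : Set.InjOn (gp G x₀) (A : Set (Fin m))
    · have hW : f = W q A.card := by
        rw [hf]
        unfold fA
        rw [if_pos hin]
      have hle : ∀ y : Fin m → Fin q, fA q A y ≤ f := by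
        intro y
        unfold fA
        split_ifs
        · exact hW.ge
        · exact hf0
      obtain ⟨e1, e2⟩ := hAL1 m q A M hdis (hc.trans hrq)
      have h1 := hEBD m B q s Λ τ (f * (2 * H : ℝ) ^ M.card) G P A M (eA q A M) hΛ hτ0.le
        (by positivity) hqΛ hAgr hSpr hdis.symm (hZ M) e1 e2 fun y =>
          ((hAL2 m q r H A M hH hq hrq hc y).1).trans
            (mul_le_mul_of_nonneg_right (hle y) (by positivity))
      refine h1.trans (le_of_eq ?_)
      rw [mul_pow]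
      ring
    · have hfz : f = 0 := by
        rw [hf]
        unfold fA
        rw [if_neg hin]
      have h0 : ∀ x ∈ P, eA q A M (gp G x) = 0 := by
        intro x hx
        have h1 := (hAL2 m q r H A M hH hq hrq hc (gp G x)).1
        rw [hfx x hx, hfz, zero_mul] at h1
        exact abs_nonpos_iff.1 h1
      rw [Finset.sum_congr rfl h0, Finset.sum_const_zero, abs_zero, hfz]
      simp
  -- the second sum
  have k2 : ∀ M : Finset (Fin m), M ∈ (univ : Finset (Finset (Fin m))).filter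
      (fun M => M.card ≤ r ∧ g < (M \ A).card) →
      |∑ x ∈ P, eA q ∅ M (gp G x)| ≤ (2 * H : ℝ) ^ M.card * τ ^ g * P.card := by
    intro M hM
    rw [Finset.mem_filter] at hM
    obtain ⟨-, hM1, hM2⟩ := hM
    obtain ⟨e1, e2⟩ := hAL1 m q ∅ M (Finset.disjoint_empty_left _) (by
      rw [Finset.card_empty]; omega)
    have hsub : ∅ ∪ M ⊆ A ∪ (M \ A) := by
      intro i hi
      rw [Finset.empty_union] at hi
      by_cases h : i ∈ A
      · exact Finset.mem_union_left _ h
      · exact Finset.mem_union_right _ (Finset.mem_sdiff.2 ⟨hi, h⟩)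
    have h1 := hEBD m B q s Λ τ ((2 * H : ℝ) ^ M.card) G P A (M \ A) (eA q ∅ M) hΛ hτ0.le
      (by positivity) hqΛ hAgr hSpr Finset.sdiff_disjoint (hZ (M \ A))
      (fun y y' h => e1 y y' fun i hi => h i (hsub hi))
      (fun i hi y => e2 i (Finset.mem_sdiff.1 hi).1 y) fun y => by
        have h2 := (hAL2 m q r H ∅ M hH hq hrq (by rw [Finset.card_empty]; omega) y).1
        rwa [fA_empty, one_mul] at h2
    refine h1.trans ?_
    have h3 : τ ^ (M \ A).card ≤ τ ^ g := pow_le_pow_of_le_one hτ0.le hτ1 hM2.le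
    have h4 : (0 : ℝ) ≤ (2 * H : ℝ) ^ M.card := by positivity
    exact mul_le_mul_of_nonneg_right (mul_le_mul_of_nonneg_left h3 h4) hP0
  -- regroup
  set S1 := (Aᶜ).powerset.filter (fun M => M.card ≤ g) with hS1
  set S2 := (univ : Finset (Finset (Fin m))).filter
    (fun M => M.card ≤ r ∧ g < (M \ A).card) with hS2
  have hmem : (∅ : Finset (Fin m)) ∈ S1 := by
    rw [hS1, Finset.mem_filter, Finset.mem_powerset]
    exact ⟨Finset.empty_subset _, by rw [Finset.card_empty]; exact Nat.zero_le _⟩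
  have hsum : ∑ x ∈ P, DD q r (gp G x) = P.card * f +
      ∑ M ∈ S1.erase ∅, ∑ x ∈ P, eA q A M (gp G x) + ∑ M ∈ S2, ∑ x ∈ P, eA q ∅ M (gp G x) := by
    have h1 : ∑ x ∈ P, DD q r (gp G x) = ∑ x ∈ P, (∑ M ∈ S1, eA q A M (gp G x) +
        ∑ M ∈ S2, eA q ∅ M (gp G x)) :=
      Finset.sum_congr rfl fun x _ => hGRP m q r a₀ g A hA hag (gp G x)
    rw [h1, Finset.sum_add_distrib, Finset.sum_comm (s := P) (t := S1),
      Finset.sum_comm (s := P) (t := S2), ← Finset.add_sum_erase S1 _ hmem]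
    congr 2
    rw [Finset.sum_congr rfl fun x hx => (eA_empty q A (gp G x)).trans (hfx x hx),
      Finset.sum_const, nsmul_eq_mul]
  have b1 : |∑ M ∈ S1.erase ∅, ∑ x ∈ P, eA q A M (gp G x)| ≤ P.card * (f / 16) := by
    have h1 : |∑ M ∈ S1.erase ∅, ∑ x ∈ P, eA q A M (gp G x)| ≤
        ∑ M ∈ S1.erase ∅, f * (2 * H * τ) ^ M.card * P.card :=
      (Finset.abs_sum_le_sum_abs _ _).trans (Finset.sum_le_sum fun M hM =>
        k1 M (Finset.mem_of_mem_erase hM))
    have h2 : ∑ M ∈ S1.erase ∅, f * (2 * H * τ) ^ M.card * P.card ≤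
        ∑ M ∈ (univ : Finset (Finset (Fin m))).erase ∅, f * (2 * H * τ) ^ M.card * P.card :=
      Finset.sum_le_sum_of_subset_of_nonneg
        (Finset.erase_subset_erase _ (Finset.subset_univ _)) fun M _ _ => by positivity
    have h3 : ∑ M ∈ (univ : Finset (Finset (Fin m))).erase ∅, f * (2 * H * τ) ^ M.card * P.card =
        f * P.card * ((1 + 2 * H * τ) ^ m - 1) := by
      have h4 := Finset.add_sum_erase (univ : Finset (Finset (Fin m)))
        (fun M => (2 * H * τ : ℝ) ^ M.card) (Finset.mem_univ ∅)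
      rw [sum_pow] at h4
      simp only [Finset.card_empty, pow_zero] at h4
      rw [← h4, add_sub_cancel_left, Finset.mul_sum]
      exact Finset.sum_congr rfl fun M _ => by ring
    rw [h3] at h2
    refine h1.trans (h2.trans ?_)
    have h5 : f * P.card * ((1 + 2 * H * τ) ^ m - 1) ≤ f * P.card * (1 / 16) :=
      mul_le_mul_of_nonneg_left (by linarith) (by positivity)
    linarith
  have b2 : |∑ M ∈ S2, ∑ x ∈ P, eA q ∅ M (gp G x)| ≤ P.card * (1 / 16) := by
    have h1 : |∑ M ∈ S2, ∑ x ∈ P, eA q ∅ M (gp G x)| ≤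
        ∑ M ∈ S2, (2 * H : ℝ) ^ M.card * τ ^ g * P.card :=
      (Finset.abs_sum_le_sum_abs _ _).trans (Finset.sum_le_sum k2)
    have h2 : ∑ M ∈ S2, (2 * H : ℝ) ^ M.card * τ ^ g * P.card ≤
        ∑ M : Finset (Fin m), (2 * H : ℝ) ^ M.card * τ ^ g * P.card :=
      Finset.sum_le_sum_of_subset_of_nonneg (Finset.subset_univ _) fun M _ _ => by positivity
    have h3 : ∑ M : Finset (Fin m), (2 * H : ℝ) ^ M.card * τ ^ g * P.card =
        (1 + 2 * (H : ℝ)) ^ m * τ ^ g * P.card := by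
      rw [← sum_pow, Finset.sum_mul, Finset.sum_mul]
    rw [h3] at h2
    refine h1.trans (h2.trans ?_)
    have h5 := mul_le_mul_of_nonneg_right he2 hP0
    linarith
  have h6 : ∑ x ∈ P, DD q r (gp G x) - P.card * f =
      ∑ M ∈ S1.erase ∅, ∑ x ∈ P, eA q A M (gp G x) + ∑ M ∈ S2, ∑ x ∈ P, eA q ∅ M (gp G x) := by
    rw [hsum]
    ring
  rw [h6]
  refine (abs_add_le _ _).trans ?_
  rw [mul_add]
  exact add_le_add b1 b2

end Pool.Agent.H33.SHL
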