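import Pool.Agent.H97.SHL.Targets

/-!
Row LEA: leaves contain no good parts.
-/

set_option autoImplicit false

namespace Pool.Agent.H33.SHL

open Finset Pool.Agent.H97.SHL

theorem pf_LEA : T_LEA := by
  classical
  intro m B q s σ G P A hσ hP hS hL hinj
  obtain ⟨𝒯, h𝒯, hcov⟩ := hL
  let F : (Fin m × Fin B) × (Fin m × Fin B) → Finset (Pt m B) := fun t =>
    P.filter fun x => t.1.1 ≠ t.2.1 ∧ G t.1.1 t.1.2 = G t.2.1 t.2.2 ∧ x t.1.1 = t.1.2 ∧
      x t.2.1 = t.2.2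
  have hF : ∀ t x, x ∈ F t ↔ x ∈ P ∧ t.1.1 ≠ t.2.1 ∧ G t.1.1 t.1.2 = G t.2.1 t.2.2 ∧
      x t.1.1 = t.1.2 ∧ x t.2.1 = t.2.2 := fun t x => Finset.mem_filter
  have key : ∀ t ∈ 𝒯, (F t).card * s ≤ P.card := by
    intro t _
    rcases Finset.eq_empty_or_nonempty (F t) with h | ⟨x, hx⟩
    · rw [h, Finset.card_empty, Nat.zero_mul]
      exact Nat.zero_le _
    · obtain ⟨hxP, h1, h2, h3, h4⟩ := (hF t x).1 hx
      have one : ∀ i, i ∉ A → ∀ γ : Fin B, x i = γ → (∀ y ∈ F t, y i = γ) →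
          (F t).card * s ≤ P.card := by
        intro i hi γ hγ hall
        have h5 := hS {i} (Finset.disjoint_singleton_left.2 hi) x
        rw [Finset.card_singleton, pow_one] at h5
        refine le_trans (Nat.mul_le_mul_right _ (Finset.card_le_card ?_)) h5
        intro y hy
        unfold fx
        rw [Finset.mem_filter]
        refine ⟨((hF t y).1 hy).1, fun j hj => ?_⟩
        rw [Finset.mem_singleton.1 hj, hall y hy, hγ]
      by_cases hA1 : t.1.1 ∈ A
      · by_cases hA2 : t.2.1 ∈ A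
        · exfalso
          refine h1 (hinj x hxP (Finset.mem_coe.2 hA1) (Finset.mem_coe.2 hA2) ?_)
          unfold gp
          rw [h3, h4, h2]
        · exact one _ hA2 t.2.2 h4 fun y hy => ((hF t y).1 hy).2.2.2.2
      · exact one _ hA1 t.1.2 h3 fun y hy => ((hF t y).1 hy).2.2.2.1
  have hsub : P ⊆ 𝒯.biUnion F := by
    intro x hx
    obtain ⟨t, ht, h⟩ := hcov x hx
    exact Finset.mem_biUnion.2 ⟨t, ht, (hF t x).2 ⟨hx, h⟩⟩
  have h1 : P.card ≤ ∑ t ∈ 𝒯, (F t).card := (Finset.card_le_card hsub).trans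
    Finset.card_biUnion_le
  have h2 : P.card * s ≤ 𝒯.card * P.card := by
    calc P.card * s ≤ (∑ t ∈ 𝒯, (F t).card) * s := Nat.mul_le_mul_right _ h1
      _ = ∑ t ∈ 𝒯, (F t).card * s := Finset.sum_mul ..
      _ ≤ ∑ _t ∈ 𝒯, P.card := Finset.sum_le_sum key
      _ = 𝒯.card * P.card := by rw [Finset.sum_const, smul_eq_mul]
  have h3 : 0 < P.card := hP.card_pos
  have h4 : 𝒯.card * P.card < P.card * s := by
    rw [mul_comm P.card s]
    exact Nat.mul_lt_mul_of_pos_right (lt_of_le_of_lt h𝒯 hσ) h3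
  omega

end Pool.Agent.H33.SHL
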